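import Mathlib

/-!
# Definitions for MP_81d707_al

Quasi-identities of semigroups, finite bases of quasi-identities and the monoid `L`.
-/

universe u

namespace Pool.Agent.Lib.MP_81d707_al

/-- A quasi-identity in the variables `x₀, x₁, …`: the implication whose premises are the
equations `p.1 = p.2` for `p` in the finite list `prem` and whose conclusion is the equation
`concl.1 = concl.2`; words are elements of the free semigroup. -/
structure QuasiIdentity where
  /-- the premises -/
  prem : List (FreeSemigroup ℕ × FreeSemigroup ℕ)
  /-- the conclusion -/
  concl : FreeSemigroup ℕ × FreeSemigroup ℕ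

/-- `q.HoldsAt v`: the implication `q` is true under the valuation `v` of the variables. -/
def QuasiIdentity.HoldsAt {S : Type u} [Semigroup S] (q : QuasiIdentity) (v : ℕ → S) : Prop :=
  (∀ p ∈ q.prem, FreeSemigroup.lift v p.1 = FreeSemigroup.lift v p.2) →
    FreeSemigroup.lift v q.concl.1 = FreeSemigroup.lift v q.concl.2

/-- `q.HoldsIn S`: the quasi-identity `q` is true in the semigroup `S` (under all valuations). -/
def QuasiIdentity.HoldsIn (q : QuasiIdentity) (S : Type u) [Semigroup S] : Prop :=
  ∀ v : ℕ → S, q.HoldsAt v

/-- `S` has a finite basis for its quasi-identities: some finite set `B` of quasi-identities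
true in `S` implies every quasi-identity true in `S`, that is, every quasi-identity true in `S`
is true in each semigroup in which all members of `B` are true. -/
def HasFiniteQuasiIdentityBasis (S : Type u) [Semigroup S] : Prop :=
  ∃ B : Set QuasiIdentity, B.Finite ∧ (∀ q ∈ B, q.HoldsIn S) ∧
    ∀ q : QuasiIdentity, q.HoldsIn S →
      ∀ (A : Type) [Semigroup A], (∀ b ∈ B, b.HoldsIn A) → q.HoldsIn A

/-- The three-element set `{0, +, -}`. -/
inductive L : Type
  | zero
  | pos
  | neg

/-- The product of `L`: `0` is the identity and `+`, `-` are left zeros. -/
def L.mul : L → L → L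
  | L.zero, b => b
  | L.pos, _ => L.pos
  | L.neg, _ => L.neg

instance : Semigroup L where
  mul := L.mul
  mul_assoc a b c := by cases a <;> rfl

end Pool.Agent.Lib.MP_81d707_al
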