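import Pool.Agent.Lib.MP_81d707_al.Defs

/-!
# Proof for MP_81d707_al

For a finite semigroup `T` and a number `N` we build a finite left regular band
whose elements are the vertices and edges of a graph made of `|T| + 1` internally disjoint
paths of length `2 n` between two vertices `a` and `b`.  On each path the edges `k` and `k + n`
are parallel.  Every homomorphism from this band to `T` identifies `a` and `b`, whereas every
subsemigroup with less than `n` edges embeds in a power of `L`.
-/

universe u

namespace Pool.Agent.Lib.MP_81d707_al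

theorem L.zero_mul (b : L) : L.zero * b = b := rfl
theorem L.pos_mul (b : L) : L.pos * b = L.pos := rfl
theorem L.neg_mul (b : L) : L.neg * b = L.neg := rfl

/-! ### Words and valuations -/

/-- A bound on the variables of a word. -/
def wordBound (w : FreeSemigroup ℕ) : ℕ := (w.head :: w.tail).foldr max 0 + 1

theorem lt_foldr_max (l : List ℕ) (x : ℕ) (hx : x ∈ l) : x ≤ l.foldr max 0 := by
  induction l with
  | nil => simp at hx
  | cons y l ih =>
    simp only [List.foldr_cons]
    rcases List.mem_cons.1 hx with rfl | h
    · exact le_max_left _ _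
    · exact (ih h).trans (le_max_right _ _)

theorem lift_congr {S : Type u} [Semigroup S] (w : FreeSemigroup ℕ) (v v' : ℕ → S)
    (h : ∀ x ∈ (w.head :: w.tail), v x = v' x) :
    FreeSemigroup.lift v w = FreeSemigroup.lift v' w := by
  induction w using FreeSemigroup.recOnMul with
  | ih1 x =>
    simp only [FreeSemigroup.lift_of]
    exact h x (by simp [FreeSemigroup.of])
  | ih2 x y h1 h2 =>
    rw [map_mul, map_mul, h1 (fun z hz => h z ?_), h2 (fun z hz => h z ?_)]
    · simp only [FreeSemigroup.head_mul, FreeSemigroup.tail_mul, FreeSemigroup.of] at *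
      simp only [List.mem_cons, List.mem_append] at *
      tauto
    · simp only [FreeSemigroup.head_mul, FreeSemigroup.tail_mul, FreeSemigroup.of] at *
      simp only [List.mem_cons, List.mem_append] at *
      tauto

theorem lift_congr_bound {S : Type u} [Semigroup S] (w : FreeSemigroup ℕ) (v v' : ℕ → S)
    (M : ℕ) (hM : wordBound w ≤ M) (h : ∀ x < M, v x = v' x) :
    FreeSemigroup.lift v w = FreeSemigroup.lift v' w := by
  apply lift_congr
  intro x hx
  apply h
  have := lt_foldr_max _ x hx
  unfold wordBound at hM
  omega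

/-- A bound on the variables of a quasi-identity. -/
def QuasiIdentity.bound (q : QuasiIdentity) : ℕ :=
  (q.prem.map (fun p => max (wordBound p.1) (wordBound p.2))).foldr max 0 +
    max (wordBound q.concl.1) (wordBound q.concl.2)

theorem holdsAt_congr {S : Type u} [Semigroup S] (q : QuasiIdentity) (v v' : ℕ → S)
    (M : ℕ) (hM : q.bound ≤ M) (h : ∀ x < M, v x = v' x) : q.HoldsAt v ↔ q.HoldsAt v' := by
  unfold QuasiIdentity.HoldsAt
  unfold QuasiIdentity.bound at hM
  have h1 : ∀ p ∈ q.prem, FreeSemigroup.lift v p.1 = FreeSemigroup.lift v' p.1 ∧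
      FreeSemigroup.lift v p.2 = FreeSemigroup.lift v' p.2 := by
    intro p hp
    have := lt_foldr_max _ (max (wordBound p.1) (wordBound p.2))
      (List.mem_map.2 ⟨p, hp, rfl⟩ : max (wordBound p.1) (wordBound p.2) ∈
        (q.prem.map (fun p => max (wordBound p.1) (wordBound p.2))))
    have h3 := le_max_left (wordBound p.1) (wordBound p.2)
    have h4 := le_max_right (wordBound p.1) (wordBound p.2)
    exact ⟨lift_congr_bound _ _ _ M (by omega) h, lift_congr_bound _ _ _ M (by omega) h⟩
  have h3 := le_max_left (wordBound q.concl.1) (wordBound q.concl.2)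
  have h4 := le_max_right (wordBound q.concl.1) (wordBound q.concl.2)
  rw [lift_congr_bound q.concl.1 v v' M (by omega) h,
    lift_congr_bound q.concl.2 v v' M (by omega) h]
  constructor
  · intro hq hp
    exact hq (fun p hpm => by rw [(h1 p hpm).1, (h1 p hpm).2]; exact hp p hpm)
  · intro hq hp
    exact hq (fun p hpm => by rw [← (h1 p hpm).1, ← (h1 p hpm).2]; exact hp p hpm)

theorem exists_bound (B : Set QuasiIdentity) (hB : B.Finite) : ∃ M, ∀ q ∈ B, q.bound ≤ M := by
  obtain ⟨M, hM⟩ := (hB.image QuasiIdentity.bound).bddAbove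
  exact ⟨M, fun q hq => hM ⟨q, hq, rfl⟩⟩

/-! ### The quasi-identity attached to a finite semigroup and a pair of elements -/

/-- The quasi-identity: the multiplication table of `A` implies `a = b`. -/
noncomputable def tableQI {A : Type} [Semigroup A] [Fintype A] (e : A ↪ ℕ) (a b : A) :
    QuasiIdentity where
  prem := (Finset.univ : Finset (A × A)).toList.map
    (fun p => (FreeSemigroup.of (e p.1) * FreeSemigroup.of (e p.2),
      FreeSemigroup.of (e (p.1 * p.2))))
  concl := (FreeSemigroup.of (e a), FreeSemigroup.of (e b))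

theorem tableQI_holdsIn {A : Type} [Semigroup A] [Fintype A] (e : A ↪ ℕ) (a b : A)
    (T : Type u) [Semigroup T] (h : ∀ f : A →ₙ* T, f a = f b) : (tableQI e a b).HoldsIn T := by
  intro v hp
  let f : A →ₙ* T :=
    { toFun := fun x => v (e x)
      map_mul' := by
        intro x y
        have := hp (FreeSemigroup.of (e x) * FreeSemigroup.of (e y),
          FreeSemigroup.of (e (x * y))) (by
            simp only [tableQI, List.mem_map, Finset.mem_toList, Finset.mem_univ, true_and]
            exact ⟨(x, y), rfl⟩)
        simpa using this.symm }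
  have := h f
  simpa [tableQI, f] using this

theorem not_tableQI_holdsIn {A : Type} [Semigroup A] [Fintype A] (e : A ↪ ℕ) (a b : A)
    (hab : a ≠ b) : ¬ (tableQI e a b).HoldsIn A := by
  intro h
  have : Nonempty A := ⟨a⟩
  have h1 := h (Function.invFun e) (by
    intro p hp
    simp only [tableQI, List.mem_map, Finset.mem_toList, Finset.mem_univ, true_and] at hp
    obtain ⟨⟨x, y⟩, rfl⟩ := hp
    simp [Function.leftInverse_invFun e.injective _])
  simp only [tableQI, FreeSemigroup.lift_of, Function.leftInverse_invFun e.injective _] at h1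
  exact hab h1

/-! ### A criterion -/

/-- The criterion used to prove that a semigroup has no finite basis of quasi-identities. -/
theorem not_finite_of_family (T : Type u) [Semigroup T] (φ : L →ₙ* T)
    (hφ : Function.Injective φ)
    (H : ∀ N : ℕ, ∃ (A : Type) (_ : Semigroup A) (_ : Fintype A) (a b : A), a ≠ b ∧
      (∀ f : A →ₙ* T, f a = f b) ∧
      ∀ v : ℕ → A, ∃ U : Subsemigroup A, (U : Set A).Nonempty ∧ (∀ x < N, v x ∈ U) ∧
        ∀ x y : U, x ≠ y → ∃ g : U →ₙ* L, g x ≠ g y) :
    ¬ HasFiniteQuasiIdentityBasis T := by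
  rintro ⟨B, hB, hBT, himp⟩
  obtain ⟨N, hN⟩ := exists_bound B hB
  obtain ⟨A, _, _, a, b, hab, hf, hloc⟩ := H N
  let e : A ↪ ℕ := (Fintype.equivFin A).toEmbedding.trans Fin.valEmbedding
  refine not_tableQI_holdsIn e a b hab (himp _ (tableQI_holdsIn e a b T hf) A ?_)
  intro q hq v
  obtain ⟨U, ⟨u0, hu0⟩, hU, hsep⟩ := hloc v
  classical
  let w : ℕ → U := fun x => if h : x < N then ⟨v x, hU x h⟩ else ⟨u0, hu0⟩
  rw [holdsAt_congr q v (fun x => (w x : A)) N (hN q hq) (fun x hx => by simp [w, hx])]
  have key : ∀ z : FreeSemigroup ℕ,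
      FreeSemigroup.lift (fun x => (w x : A)) z = ((FreeSemigroup.lift w z : U) : A) := by
    intro z
    have : FreeSemigroup.lift (fun x => (w x : A)) =
        (MulMemClass.subtype U).comp (FreeSemigroup.lift w) :=
      FreeSemigroup.hom_ext (by ext x; simp)
    rw [this]; rfl
  intro hp
  rw [key, key]
  by_contra hne
  have hne' : FreeSemigroup.lift w q.concl.1 ≠ FreeSemigroup.lift w q.concl.2 :=
    fun h => hne (by rw [h])
  obtain ⟨g, hg⟩ := hsep _ _ hne'
  have key2 : ∀ z : FreeSemigroup ℕ,
      FreeSemigroup.lift (fun x => φ (g (w x))) z = φ (g (FreeSemigroup.lift w z)) := by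
    intro z
    have : FreeSemigroup.lift (fun x => φ (g (w x))) =
        (φ.comp g).comp (FreeSemigroup.lift w) :=
      FreeSemigroup.hom_ext (by ext x; simp)
    rw [this]; rfl
  have h1 := hBT q hq (fun x => φ (g (w x))) (by
    intro p hpm
    rw [key2, key2]
    have := hp p hpm
    rw [key, key] at this
    rw [Subtype.ext this])
  rw [key2, key2] at h1
  exact hg (hφ h1)

/-! ### Duality -/

/-- Word reversal. -/
def rev : FreeSemigroup ℕ → FreeSemigroup ℕ := fun w =>
  MulOpposite.unop (FreeSemigroup.lift (fun x => MulOpposite.op (FreeSemigroup.of x)) w)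

theorem rev_of (x : ℕ) : rev (FreeSemigroup.of x) = FreeSemigroup.of x := by
  simp [rev]

theorem rev_mul (x y : FreeSemigroup ℕ) : rev (x * y) = rev y * rev x := by
  simp [rev]

theorem rev_rev (w : FreeSemigroup ℕ) : rev (rev w) = w := by
  induction w using FreeSemigroup.recOnMul with
  | ih1 x => rw [rev_of, rev_of]
  | ih2 x y h1 h2 => rw [rev_mul, rev_mul, h1, h2]

theorem lift_rev {S : Type u} [Semigroup S] (v : ℕ → S) (w : FreeSemigroup ℕ) :
    FreeSemigroup.lift v (rev w) =
      MulOpposite.unop (FreeSemigroup.lift (fun x => MulOpposite.op (v x)) w) := by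
  induction w using FreeSemigroup.recOnMul with
  | ih1 x => simp [rev_of]
  | ih2 x y h1 h2 => rw [rev_mul, map_mul, h1, h2, map_mul, MulOpposite.unop_mul]

/-- The dual quasi-identity. -/
def QuasiIdentity.dual (q : QuasiIdentity) : QuasiIdentity where
  prem := q.prem.map (fun p => (rev p.1, rev p.2))
  concl := (rev q.concl.1, rev q.concl.2)

theorem dual_holdsIn {S : Type u} [Semigroup S] (q : QuasiIdentity) :
    q.dual.HoldsIn S ↔ q.HoldsIn Sᵐᵒᵖ := by
  constructor
  · intro h v hp
    have h1 := h (fun x => MulOpposite.unop (v x)) (by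
      intro p hpm
      simp only [QuasiIdentity.dual, List.mem_map] at hpm
      obtain ⟨p', hp', rfl⟩ := hpm
      simp only [lift_rev, MulOpposite.op_unop]
      rw [hp p' hp'])
    simp only [QuasiIdentity.dual, lift_rev, MulOpposite.op_unop] at h1
    exact MulOpposite.unop_injective h1
  · intro h v hp
    have h1 := h (fun x => MulOpposite.op (v x)) (by
      intro p hpm
      have h2 := hp (rev p.1, rev p.2) (by
        simp only [QuasiIdentity.dual, List.mem_map]
        exact ⟨p, hpm, rfl⟩)
      simp only [lift_rev] at h2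
      exact MulOpposite.unop_injective h2)
    simp only [QuasiIdentity.dual, lift_rev]
    rw [h1]

theorem dual_dual (q : QuasiIdentity) : q.dual.dual = q := by
  cases q with
  | mk prem concl =>
    simp only [QuasiIdentity.dual, List.map_map, rev_rev]
    congr 1
    conv_rhs => rw [← List.map_id prem]
    apply List.map_congr_left
    intro p _
    simp [rev_rev]

theorem hasFinite_op (T : Type u) [Semigroup T] (h : HasFiniteQuasiIdentityBasis T) :
    HasFiniteQuasiIdentityBasis Tᵐᵒᵖ := by
  obtain ⟨B, hB, hBT, himp⟩ := h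
  refine ⟨QuasiIdentity.dual '' B, hB.image _, ?_, ?_⟩
  · rintro _ ⟨q, hq, rfl⟩
    rw [← dual_holdsIn, dual_dual]
    exact hBT q hq
  · intro q hq A _ hA
    have h1 : q.dual.HoldsIn T := by rw [dual_holdsIn]; exact hq
    have h2 := himp q.dual h1 Aᵐᵒᵖ (by
      intro b hb
      rw [← dual_holdsIn]
      exact hA _ ⟨b, hb, rfl⟩)
    rw [← dual_holdsIn, dual_dual] at h2
    exact h2

/-! ### Bands of vertices and edges -/

/-- A system of vertices `V`, edges `E` and edge classes `C`; each class `κ` divides the
vertices in two sides, and the edges of class `κ` are exactly those with ends in both sides. -/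
structure Walls (V E C : Type) where
  cl : E → C
  side : C → V → Bool
  ends : E → Bool → V
  side_ends : ∀ z b, side (cl z) (ends z b) = b
  side_other : ∀ z κ, κ ≠ cl z → side κ (ends z true) = side κ (ends z false)

/-- The band of vertices and edges. -/
inductive Band {V E C : Type} (W : Walls V E C) : Type
  | vtx : V → Band W
  | edg : E → Band W

open Band

variable {V E C : Type} (W : Walls V E C)

open Classical in
/-- The product in the band: a vertex is a left zero; an edge `z` times a vertex `u` is the end
of `z` on the side of `u`; the product of the edge `z` and the edge `w` is `z` if they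
are parallel and otherwise the end of `z` on the side of `w`. -/
noncomputable def Band.mul : Band W → Band W → Band W
  | vtx u, _ => vtx u
  | edg z, vtx u => vtx (W.ends z (W.side (W.cl z) u))
  | edg z, edg w =>
    if W.cl z = W.cl w then edg z else vtx (W.ends z (W.side (W.cl z) (W.ends w true)))

theorem Band.mul1 (u : V) (x : Band W) : Band.mul W (vtx u) x = vtx u := rfl
theorem Band.mul2 (z : E) (u : V) :
    Band.mul W (edg z) (vtx u) = vtx (W.ends z (W.side (W.cl z) u)) := rfl
theorem Band.mul3 (z w : E) (h : W.cl z = W.cl w) :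
    Band.mul W (edg z) (edg w) = edg z := by
  simp [Band.mul, h]
theorem Band.mul4 (z w : E) (h : W.cl z ≠ W.cl w) :
    Band.mul W (edg z) (edg w) = vtx (W.ends z (W.side (W.cl z) (W.ends w true))) := by
  simp [Band.mul, h]

theorem Walls.side_any (z : E) (κ : C) (h : κ ≠ W.cl z) (b : Bool) :
    W.side κ (W.ends z b) = W.side κ (W.ends z true) := by
  cases b
  · exact (W.side_other z κ h).symm
  · rfl

noncomputable instance : Semigroup (Band W) where
  mul := Band.mul W
  mul_assoc := by
    intro x y t
    change Band.mul W (Band.mul W x y) t = Band.mul W x (Band.mul W y t)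
    rcases x with u | z
    · rfl
    rcases y with u' | w
    · rfl
    by_cases h : W.cl z = W.cl w
    · rw [Band.mul3 W z w h]
      rcases t with u'' | s
      · rw [Band.mul2, Band.mul2, Band.mul2, h, W.side_ends]
      · by_cases h2 : W.cl w = W.cl s
        · rw [Band.mul3 W z s (h.trans h2), Band.mul3 W w s h2, Band.mul3 W z w h]
        · rw [Band.mul4 W z s (h ▸ h2), Band.mul4 W w s h2, Band.mul2, h, W.side_ends]
    · rw [Band.mul4 W z w h]
      rcases t with u'' | s
      · rw [Band.mul1, Band.mul2, Band.mul2, W.side_any w _ h (W.side (W.cl w) u'')]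
      · by_cases h2 : W.cl w = W.cl s
        · rw [Band.mul1, Band.mul3 W w s h2, Band.mul4 W z w h]
        · rw [Band.mul1, Band.mul4 W w s h2, Band.mul2,
            W.side_any w _ h (W.side (W.cl w) (W.ends s true))]

theorem vtx_mul (u : V) (x : Band W) : vtx u * x = vtx u := rfl
theorem edg_mul_vtx (z : E) (u : V) :
    (edg z * vtx u : Band W) = vtx (W.ends z (W.side (W.cl z) u)) := rfl
theorem edg_mul_edg (z w : E) (h : W.cl z = W.cl w) :
    (edg z * edg w : Band W) = edg z := Band.mul3 W z w h
theorem edg_mul_edg' (z w : E) (h : W.cl z ≠ W.cl w) :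
    (edg z * edg w : Band W) = vtx (W.ends z (W.side (W.cl z) (W.ends w true))) :=
  Band.mul4 W z w h

/-- A sign as a nonzero element of `L`. -/
def sgn : Bool → L
  | true => L.pos
  | false => L.neg

theorem sgn_mul (b : Bool) (x : L) : sgn b * x = sgn b := by cases b <;> rfl
theorem sgn_inj {b c : Bool} (h : sgn b = sgn c) : b = c := by
  cases b <;> cases c <;> simp_all [sgn]
theorem sgn_ne_zero (b : Bool) : sgn b ≠ L.zero := by
  cases b <;> simp [sgn]

open Classical in
/-- The function underlying `wallHom`. -/
noncomputable def wallFun (κ : C) : Band W → L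
  | vtx u => sgn (W.side κ u)
  | edg z => if W.cl z = κ then L.zero else sgn (W.side κ (W.ends z true))

theorem wallFun_vtx (κ : C) (u : V) : wallFun W κ (vtx u) = sgn (W.side κ u) := rfl
theorem wallFun_edg (κ : C) (z : E) (h : W.cl z = κ) : wallFun W κ (edg z) = L.zero := by
  simp [wallFun, h]
theorem wallFun_edg' (κ : C) (z : E) (h : W.cl z ≠ κ) :
    wallFun W κ (edg z) = sgn (W.side κ (W.ends z true)) := by
  simp [wallFun, h]

/-- The homomorphism to `L` given by the class `κ`. -/
noncomputable def wallHom (κ : C) : Band W →ₙ* L where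
  toFun := wallFun W κ
  map_mul' := by
    intro x y
    rcases x with u | z
    · rw [vtx_mul, wallFun_vtx, sgn_mul]
    rcases y with u | w
    · rw [edg_mul_vtx, wallFun_vtx, wallFun_vtx]
      by_cases h : W.cl z = κ
      · rw [wallFun_edg W κ z h, h.symm, W.side_ends, L.zero_mul]
      · rw [wallFun_edg' W κ z h, sgn_mul, W.side_any z κ (Ne.symm h)]
    · by_cases h2 : W.cl z = W.cl w
      · rw [edg_mul_edg W z w h2]
        by_cases h : W.cl z = κ
        · rw [wallFun_edg W κ z h, wallFun_edg W κ w (h2 ▸ h), L.zero_mul]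
        · rw [wallFun_edg' W κ z h, sgn_mul]
      · rw [edg_mul_edg' W z w h2, wallFun_vtx]
        by_cases h : W.cl z = κ
        · subst h
          rw [wallFun_edg W _ z rfl, L.zero_mul, wallFun_edg' W _ w (Ne.symm h2), W.side_ends]
        · rw [wallFun_edg' W κ z h, sgn_mul, W.side_any z κ (Ne.symm h)]

/-- The subsemigroup of all vertices and the edges in the set `F`. -/
def bandSub (F : Set E) : Subsemigroup (Band W) where
  carrier := {x | (∃ u, x = vtx u) ∨ ∃ z ∈ F, x = edg z}
  mul_mem' := by
    rintro x y (⟨u, rfl⟩ | ⟨z, hz, rfl⟩) hy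
    · exact Or.inl ⟨u, rfl⟩
    · rcases hy with ⟨u, rfl⟩ | ⟨w, hw, rfl⟩
      · exact Or.inl ⟨_, rfl⟩
      · by_cases h : W.cl z = W.cl w
        · rw [edg_mul_edg W z w h]; exact Or.inr ⟨z, hz, rfl⟩
        · rw [edg_mul_edg' W z w h]; exact Or.inl ⟨_, rfl⟩

/-- The function underlying `compHom`. -/
def compFun (c : V → Bool) : Band W → L
  | vtx u => sgn (c u)
  | edg z => sgn (c (W.ends z true))

/-- A function constant along the edges in `F` gives a homomorphism to `{+,-}`. -/
def compHom (F : Set E) (c : V → Bool) (hc : ∀ z ∈ F, c (W.ends z true) = c (W.ends z false)) :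
    bandSub W F →ₙ* L where
  toFun := fun x => compFun W c x.1
  map_mul' := by
    rintro ⟨x, hx⟩ ⟨y, hy⟩
    change compFun W c (x * y) = compFun W c x * compFun W c y
    rcases x with u | z
    · rw [vtx_mul]; exact (sgn_mul _ _).symm
    · have hz : z ∈ F := by
        rcases hx with ⟨u, hu⟩ | ⟨w, hw, hw2⟩
        · exact absurd hu (by rintro ⟨⟩)
        · cases hw2; exact hw
      have h1 : ∀ b, c (W.ends z b) = c (W.ends z true) := by
        intro b
        cases b
        · exact (hc z hz).symm
        · rfl
      have h3 : ∀ b, compFun W c (vtx (W.ends z b)) = compFun W c (edg z) * compFun W c y := by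
        intro b
        change sgn (c (W.ends z b)) = sgn (c (W.ends z true)) * _
        rw [h1, sgn_mul]
      rcases y with u | w
      · rw [edg_mul_vtx]; exact h3 _
      · by_cases h : W.cl z = W.cl w
        · rw [edg_mul_edg W z w h]
          exact (sgn_mul _ _).symm
        · rw [edg_mul_edg' W z w h]; exact h3 _

/-! ### The theta graph -/

/-- vertices: `inl false = a`, `inl true = b`, `inr (i, l)` is the vertex at position `l + 1`
of the `i`-th path -/
abbrev Vert (ι : Type) (n : ℕ) : Type := Bool ⊕ (ι × Fin (2 * n - 1))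

/-- the vertex at position `l` on the path `i` -/
def vt {ι : Type} {n : ℕ} (i : ι) (l : ℕ) : Vert ι n :=
  if h : 0 < l ∧ l < 2 * n then Sum.inr (i, ⟨l - 1, by omega⟩)
  else Sum.inl (decide (l ≠ 0))

open Classical in
/-- the side of a vertex with respect to the class `(i, k)` -/
noncomputable def sideFn {ι : Type} {n : ℕ} (κ : ι × Fin n) : Vert ι n → Bool
  | Sum.inl _ => false
  | Sum.inr (j, l) => decide (j = κ.1 ∧ κ.2.1 < l.1 + 1 ∧ l.1 + 1 ≤ κ.2.1 + n)

theorem sideFn_vt {ι : Type} {n : ℕ} (κ : ι × Fin n) (i : ι) (l : ℕ) :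
    (sideFn κ (vt i l : Vert ι n) = true) ↔ (i = κ.1 ∧ κ.2.1 < l ∧ l ≤ κ.2.1 + n) := by
  have hk := κ.2.2
  unfold vt
  split_ifs with h
  · simp only [sideFn, decide_eq_true_eq]
    have : l - 1 + 1 = l := by omega
    rw [this]
  · simp only [sideFn]
    constructor
    · intro h; exact absurd h (by simp)
    · rintro ⟨_, h1, h2⟩; omega

/-- the ends of the edges: the edge `(i, k, false)` joins the positions `k` and `k + 1` of the
path `i`, the edge `(i, k, true)` joins the positions `k + n` and `k + n + 1`. -/
def endFn {ι : Type} {n : ℕ} (z : ι × Fin n × Bool) (b : Bool) : Vert ι n :=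
  match z.2.2, b with
  | false, false => vt z.1 z.2.1.1
  | false, true => vt z.1 (z.2.1.1 + 1)
  | true, true => vt z.1 (z.2.1.1 + n)
  | true, false => vt z.1 (z.2.1.1 + n + 1)

/-- The walls of the theta graph. -/
noncomputable def theta (ι : Type) (n : ℕ) : Walls (Vert ι n) (ι × Fin n × Bool) (ι × Fin n) where
  cl := fun z => (z.1, z.2.1)
  side := sideFn
  ends := endFn
  side_ends := by
    rintro ⟨i, k, c⟩ b
    have hk := k.2
    have h := sideFn_vt (n := n) (i, k) i
    cases c <;> cases b
    · simp only [endFn]
      rw [← Bool.not_eq_true, h]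
      simp
    · simp only [endFn]
      rw [h]
      simp; omega
    · simp only [endFn]
      rw [← Bool.not_eq_true, h]
      simp
    · simp only [endFn]
      rw [h]
      simp; omega
  side_other := by
    rintro ⟨i, k, c⟩ ⟨j, k'⟩ hne
    have hk := k.2
    have hk' := k'.2
    have h := sideFn_vt (n := n) (j, k') i
    have hne' : i = j → k'.1 ≠ k.1 := by
      rintro rfl hkk
      exact hne (by simp [Fin.ext_iff, hkk])
    cases c
    · simp only [endFn]
      rw [Bool.eq_iff_iff, h, h]
      constructor
      · rintro ⟨h1, h2, h3⟩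
        have := hne' h1
        simp only at h2 h3 ⊢
        exact ⟨h1, by omega, by omega⟩
      · rintro ⟨h1, h2, h3⟩
        have := hne' h1
        simp only at h2 h3 ⊢
        exact ⟨h1, by omega, by omega⟩
    · simp only [endFn]
      rw [Bool.eq_iff_iff, h, h]
      constructor
      · rintro ⟨h1, h2, h3⟩
        have := hne' h1
        simp only at h2 h3 ⊢
        exact ⟨h1, by omega, by omega⟩
      · rintro ⟨h1, h2, h3⟩
        have := hne' h1
        simp only at h2 h3 ⊢
        exact ⟨h1, by omega, by omega⟩

/-- Every homomorphism from the band of the theta graph to a semigroup with fewer elements than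
there are paths identifies the two end vertices. -/
theorem hom_identifies {ι : Type} [Fintype ι] {n : ℕ} (hn : n ≠ 0) (T : Type u) [Semigroup T]
    [Fintype T] (hT : Fintype.card T < Fintype.card ι) (f : Band (theta ι n) →ₙ* T) :
    f (vtx (Sum.inl false)) = f (vtx (Sum.inl true)) := by
  by_contra hne
  -- on each path there is an edge whose image is not the image of a vertex
  have key : ∀ i : ι, ∃ z : ι × Fin n × Bool, z.1 = i ∧ ∀ u, f (edg z) ≠ f (vtx u) := by
    intro i
    by_contra hcon
    push Not at hcon
    apply hne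
    -- an inactive edge has ends with the same image
    have step : ∀ z : ι × Fin n × Bool, z.1 = i →
        f (vtx (endFn z true)) = f (vtx (endFn z false)) := by
      intro z hz
      obtain ⟨u, hu⟩ := hcon z hz
      have h1 : ∀ b, f (vtx (endFn z b)) = f (vtx u) := by
        intro b
        have h2 : (edg z * vtx (endFn z b) : Band (theta ι n)) = vtx (endFn z b) := by
          rw [edg_mul_vtx]
          congr 1
          change endFn z ((theta ι n).side ((theta ι n).cl z) ((theta ι n).ends z b)) = _
          rw [(theta ι n).side_ends]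
        rw [← h2, map_mul, hu, ← map_mul, vtx_mul]
      rw [h1, h1]
    have walk : ∀ l, l ≤ 2 * n → f (vtx (vt i 0)) = f (vtx (vt i l)) := by
      intro l
      induction l with
      | zero => intro _; rfl
      | succ l ih =>
        intro hl
        rw [ih (by omega)]
        by_cases hln : l < n
        · exact (step (i, ⟨l, hln⟩, false) rfl).symm
        · have := step (i, ⟨l - n, by omega⟩, true) rfl
          simp only [endFn] at this
          have h3 : l - n + n = l := by omega
          rw [h3] at this
          exact this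
    have h0 := walk (2 * n) le_rfl
    have ha : (vt i 0 : Vert ι n) = Sum.inl false := by simp [vt]
    have hb : (vt i (2 * n) : Vert ι n) = Sum.inl true := by simp [vt, hn]
    rw [ha, hb] at h0
    exact h0
  choose z hz1 hz2 using key
  have hinj : Function.Injective (fun i => f (edg (z i))) := by
    intro i j hij
    by_contra hne'
    have hcl : (theta ι n).cl (z i) ≠ (theta ι n).cl (z j) := by
      intro h
      apply hne'
      rw [← hz1 i, ← hz1 j]
      exact congrArg (fun q : ι × Fin n => q.1) h
    have h1 : f (edg (z i)) = f (edg (z i) * edg (z j)) := by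
      rw [map_mul]
      simp only at hij
      rw [← hij, ← map_mul, edg_mul_edg _ _ _ rfl]
    rw [edg_mul_edg' _ _ _ hcl] at h1
    exact hz2 i _ h1
  have := Fintype.card_le_of_injective _ hinj
  omega

/-- Small subsemigroups of the band of the theta graph are separated by homomorphisms to `L`. -/
theorem local_sep {ι : Type} {n : ℕ} (hn : 2 ≤ n) (F : Set (ι × Fin n × Bool))
    (hF : ∀ i, ∃ k : Fin n, ∃ c : Bool, (i, k, c) ∉ F) (x y : bandSub (theta ι n) F)
    (hxy : x ≠ y) : ∃ g : bandSub (theta ι n) F →ₙ* L, g x ≠ g y := by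
  -- it suffices to separate by a wall or to treat the pair of end vertices
  have wall : ∀ (x y : bandSub (theta ι n) F) (κ : ι × Fin n),
      wallFun (theta ι n) κ x ≠ wallFun (theta ι n) κ y →
      ∃ g : bandSub (theta ι n) F →ₙ* L, g x ≠ g y := by
    intro x y κ h
    exact ⟨(wallHom (theta ι n) κ).comp (MulMemClass.subtype _), h⟩
  have hends : ∀ (ha : vtx (Sum.inl false) ∈ bandSub (theta ι n) F)
      (hb : vtx (Sum.inl true) ∈ bandSub (theta ι n) F),
      ∃ g : bandSub (theta ι n) F →ₙ* L, g ⟨vtx (Sum.inl false), ha⟩ ≠ g ⟨vtx (Sum.inl true), hb⟩ := by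
    intro ha hb
    choose k c hkc using hF
    -- position of the missing edge of the path `i`
    let pos : ι → ℕ := fun i => (k i).1 + (if c i then n else 0)
    let col : Vert ι n → Bool := fun u => match u with
      | Sum.inl b => b
      | Sum.inr (i, l) => decide (pos i < l.1 + 1)
    have hpos : ∀ i, pos i < 2 * n := by
      intro i
      have := (k i).2
      simp only [pos]
      split_ifs <;> omega
    have hcol : ∀ i l, col (vt i l) = decide (pos i < l) := by
      intro i l
      have := hpos i
      unfold vt
      split_ifs with h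
      · simp only [col]
        have : l - 1 + 1 = l := by omega
        rw [this]
      · simp only [col]
        rw [decide_eq_decide]
        constructor
        · intro h1; omega
        · intro h1; omega
    refine ⟨compHom (theta ι n) F col ?_, ?_⟩
    · rintro ⟨i, k', c'⟩ hz
      have hk' := k'.2
      have hne : k' ≠ k i ∨ c' ≠ c i := by
        by_contra hcon
        push Not at hcon
        obtain ⟨rfl, rfl⟩ := hcon
        exact hkc i hz
      have hne2 : pos i ≠ k'.1 + (if c' then n else 0) := by
        have := (k i).2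
        simp only [pos]
        rcases hne with h | h
        · have h' : k'.1 ≠ (k i).1 := fun hh => h (Fin.ext hh)
          split_ifs <;> omega
        · cases c' <;> cases hci : c i <;> simp_all <;> omega
      change col (endFn _ _) = col (endFn _ _)
      cases c'
      · simp only [endFn, hcol]
        rw [decide_eq_decide]
        simp only [Bool.false_eq_true, if_false] at hne2
        omega
      · simp only [endFn, hcol]
        rw [decide_eq_decide]
        simp only [if_true] at hne2
        omega
    · change sgn (col (Sum.inl false)) ≠ sgn (col (Sum.inl true))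
      simp [col, sgn]
  have hside : ∀ (κ : ι × Fin n) (i : ι) (l : Fin (2 * n - 1)),
      (sideFn κ (Sum.inr (i, l) : Vert ι n) = true) ↔
        (i = κ.1 ∧ κ.2.1 < l.1 + 1 ∧ l.1 + 1 ≤ κ.2.1 + n) := by
    intro κ i l
    simp [sideFn]
  -- separate a middle vertex from an end vertex
  have hmid : ∀ (i : ι) (l : Fin (2 * n - 1)) (b : Bool), ∃ κ : ι × Fin n,
      sideFn κ (Sum.inr (i, l) : Vert ι n) ≠ sideFn κ (Sum.inl b : Vert ι n) := by
    intro i l b
    have hl := l.2
    refine ⟨(i, ⟨if l.1 + 1 ≤ n then l.1 else l.1 + 1 - n, by split_ifs <;> omega⟩), ?_⟩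
    have h1 := (hside (i, ⟨if l.1 + 1 ≤ n then l.1 else l.1 + 1 - n, by split_ifs <;> omega⟩)
      i l).2 ⟨rfl, by simp only; split_ifs <;> omega, by simp only; split_ifs <;> omega⟩
    rw [h1]
    simp [sideFn]
  -- separate two middle vertices
  have hmid2 : ∀ (i j : ι) (l l' : Fin (2 * n - 1)), (i, l) ≠ (j, l') → ∃ κ : ι × Fin n,
      sideFn κ (Sum.inr (i, l) : Vert ι n) ≠ sideFn κ (Sum.inr (j, l') : Vert ι n) := by
    intro i j l l' hne
    by_cases hij : i = j
    · subst hij
      have hll : l.1 ≠ l'.1 := fun h => hne (by rw [Fin.ext h])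
      have hl := l.2
      have hl' := l'.2
      -- reduce to l < l'
      have main : ∀ (l l' : Fin (2 * n - 1)), l.1 < l'.1 → ∃ κ : ι × Fin n,
          sideFn κ (Sum.inr (i, l) : Vert ι n) ≠ sideFn κ (Sum.inr (i, l') : Vert ι n) := by
        intro l l' hlt
        have hl := l.2
        have hl' := l'.2
        by_cases h1 : l.1 + 1 < n
        · by_cases h2 : l'.1 ≤ l.1 + n
          · -- class at l + 1
            refine ⟨(i, ⟨l.1 + 1, h1⟩), ?_⟩
            have h3 := (hside (i, ⟨l.1 + 1, h1⟩) i l').2 ⟨rfl, by simp only; omega, by simp only; omega⟩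
            rw [h3]
            intro h4
            have h5 := (hside (i, ⟨l.1 + 1, h1⟩) i l).1 h4
            simp at h5
          · refine ⟨(i, ⟨l.1, by omega⟩), ?_⟩
            have h3 := (hside (i, ⟨l.1, by omega⟩) i l).2 ⟨rfl, by simp only; omega, by simp only; omega⟩
            rw [h3]
            intro h4
            have h5 := (hside (i, ⟨l.1, by omega⟩) i l').1 h4.symm
            simp only [true_and] at h5
            omega
        · refine ⟨(i, ⟨l.1 + 1 - n, by omega⟩), ?_⟩
          have h3 := (hside (i, ⟨l.1 + 1 - n, by omega⟩) i l).2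
            ⟨rfl, by simp only; omega, by simp only; omega⟩
          rw [h3]
          intro h4
          have h5 := (hside (i, ⟨l.1 + 1 - n, by omega⟩) i l').1 h4.symm
          simp only [true_and] at h5
          omega
      rcases Nat.lt_or_gt_of_ne hll with h | h
      · exact main l l' h
      · obtain ⟨κ, hκ⟩ := main l' l h
        exact ⟨κ, hκ.symm⟩
    · have hl := l.2
      refine ⟨(i, ⟨if l.1 + 1 ≤ n then l.1 else l.1 + 1 - n, by split_ifs <;> omega⟩), ?_⟩
      have h1 := (hside (i, ⟨if l.1 + 1 ≤ n then l.1 else l.1 + 1 - n, by split_ifs <;> omega⟩)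
        i l).2 ⟨rfl, by simp only; split_ifs <;> omega, by simp only; split_ifs <;> omega⟩
      rw [h1]
      intro h2
      exact hij ((hside _ j l').1 h2.symm).1.symm
  -- separate two parallel edges
  have hedge : ∀ (i : ι) (k : Fin n), ∃ κ : ι × Fin n, (i, k) ≠ κ ∧
      sideFn κ (endFn (i, k, false) true : Vert ι n) ≠
        sideFn κ (endFn (i, k, true) true : Vert ι n) := by
    intro i k
    have hk := k.2
    by_cases h : k.1 = 0
    · refine ⟨(i, ⟨1, by omega⟩), ?_, ?_⟩
      · intro h2
        have := congrArg (fun q : ι × Fin n => q.2.1) h2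
        simp only at this
        omega
      · simp only [endFn]
        have h3 := (sideFn_vt (n := n) (i, ⟨1, by omega⟩) i (k.1 + n)).2
          ⟨rfl, by simp only; omega, by simp only; omega⟩
        rw [h3]
        intro h4
        have h5 := (sideFn_vt (n := n) (i, ⟨1, by omega⟩) i (k.1 + 1)).1 h4
        simp only [true_and] at h5
        omega
    · refine ⟨(i, ⟨k.1 - 1, by omega⟩), ?_, ?_⟩
      · intro h2
        have := congrArg (fun q : ι × Fin n => q.2.1) h2
        simp only at this
        omega
      · simp only [endFn]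
        have h3 := (sideFn_vt (n := n) (i, ⟨k.1 - 1, by omega⟩) i (k.1 + 1)).2
          ⟨rfl, by simp only; omega, by simp only; omega⟩
        rw [h3]
        intro h4
        have h5 := (sideFn_vt (n := n) (i, ⟨k.1 - 1, by omega⟩) i (k.1 + n)).1 h4.symm
        simp only [true_and] at h5
        omega
  rcases x with ⟨x, hx⟩
  rcases y with ⟨y, hy⟩
  have hxy' : x ≠ y := fun h => hxy (Subtype.ext h)
  have clne : ∀ (z : ι × Fin n × Bool) (κ : ι × Fin n), (z.1, z.2.1) ≠ κ →
      (theta ι n).cl z ≠ κ := fun z κ h => h
  rcases x with u | z <;> rcases y with u' | w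
  · -- two vertices
    have hv : ∀ κ, wallFun (theta ι n) κ (vtx u) ≠ wallFun (theta ι n) κ (vtx u') ↔
        sideFn κ u ≠ sideFn κ u' := by
      intro κ
      rw [wallFun_vtx, wallFun_vtx]
      exact ⟨fun h1 h2 => h1 (by rw [show (theta ι n).side κ u = (theta ι n).side κ u' from h2]),
        fun h1 h2 => h1 (sgn_inj h2)⟩
    rcases u with b | ⟨i, l⟩ <;> rcases u' with b' | ⟨j, l'⟩
    · cases b <;> cases b'
      · exact absurd rfl hxy'
      · exact hends hx hy
      · obtain ⟨g, hg⟩ := hends hy hx
        exact ⟨g, hg.symm⟩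
      · exact absurd rfl hxy'
    · obtain ⟨κ, hκ⟩ := hmid j l' b
      exact wall _ _ κ ((hv κ).2 hκ.symm)
    · obtain ⟨κ, hκ⟩ := hmid i l b'
      exact wall _ _ κ ((hv κ).2 hκ)
    · obtain ⟨κ, hκ⟩ := hmid2 i j l l' (fun h => hxy' (by rw [h]))
      exact wall _ _ κ ((hv κ).2 hκ)
  · refine wall _ _ ((theta ι n).cl w) ?_
    change wallFun _ _ (vtx u) ≠ wallFun _ _ (edg w)
    rw [wallFun_edg _ _ w rfl, wallFun_vtx]
    exact sgn_ne_zero _
  · refine wall _ _ ((theta ι n).cl z) ?_
    change wallFun _ _ (edg z) ≠ wallFun _ _ (vtx u')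
    rw [wallFun_edg _ _ z rfl, wallFun_vtx]
    exact (sgn_ne_zero _).symm
  · by_cases hcl : (theta ι n).cl z = (theta ι n).cl w
    · obtain ⟨i, k, c⟩ := z
      obtain ⟨j, k', c'⟩ := w
      obtain ⟨rfl, rfl⟩ : i = j ∧ k = k' := by
        have := Prod.mk.inj hcl
        exact this
      obtain ⟨κ, hκ1, hκ2⟩ := hedge i k
      refine wall _ _ κ ?_
      change wallFun _ _ (edg (i, k, c)) ≠ wallFun _ _ (edg (i, k, c'))
      rw [wallFun_edg' _ _ _ (clne _ _ hκ1), wallFun_edg' _ _ _ (clne _ _ hκ1)]
      intro h
      have h2 := sgn_inj h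
      cases c <;> cases c'
      · exact hxy' rfl
      · exact hκ2 h2
      · exact hκ2 h2.symm
      · exact hxy' rfl
    · refine wall _ _ ((theta ι n).cl z) ?_
      change wallFun _ _ (edg z) ≠ wallFun _ _ (edg w)
      rw [wallFun_edg _ _ z rfl, wallFun_edg' _ _ w (Ne.symm hcl)]
      exact (sgn_ne_zero _).symm

noncomputable instance {V E C : Type} [Fintype V] [Fintype E] (W : Walls V E C) :
    Fintype (Band W) := by
  classical
  exact Fintype.ofSurjective (fun x : V ⊕ E => (match x with
    | Sum.inl u => vtx u
    | Sum.inr z => edg z : Band W)) (by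
      rintro (u | z)
      · exact ⟨Sum.inl u, rfl⟩
      · exact ⟨Sum.inr z, rfl⟩)

/-- The case of `L`. -/
theorem not_finite_of_L (T : Type u) [Semigroup T] [Finite T] (φ : L →ₙ* T)
    (hφ : Function.Injective φ) : ¬ HasFiniteQuasiIdentityBasis T := by
  have := Fintype.ofFinite T
  apply not_finite_of_family T φ hφ
  intro N
  let ι := Fin (Fintype.card T + 1)
  refine ⟨Band (theta ι (N + 2)), inferInstance, inferInstance, vtx (Sum.inl false),
    vtx (Sum.inl true), by simp, hom_identifies (by omega) T (by simp [ι]), ?_⟩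
  intro v
  let F : Set (ι × Fin (N + 2) × Bool) := {z | ∃ x < N, v x = edg z}
  refine ⟨bandSub (theta ι (N + 2)) F, ⟨vtx (Sum.inl false), Or.inl ⟨_, rfl⟩⟩, ?_, ?_⟩
  · intro x hx
    rcases h : v x with u | z
    · exact Or.inl ⟨u, rfl⟩
    · exact Or.inr ⟨z, ⟨x, hx, h⟩, rfl⟩
  · apply local_sep (by omega) F
    intro i
    by_contra hcon
    push Not at hcon
    have h1 : ∀ k : Fin (N + 2), ∃ x : Fin N, v x.1 = edg (i, k, false) := by
      intro k
      obtain ⟨x, hx, hv⟩ := hcon k false
      exact ⟨⟨x, hx⟩, hv⟩
    choose g hg using h1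
    have hinj : Function.Injective g := by
      intro k k' hkk
      have h2 := hg k
      rw [hkk, hg k'] at h2
      injection h2 with h3
      have := congrArg (fun q : ι × Fin (N + 2) × Bool => q.2.1) h3
      exact this.symm
    have := Fintype.card_le_of_injective g hinj
    simp at this

end Pool.Agent.Lib.MP_81d707_al
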